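import Pool.Agent.helper41.G5.SpecG

/-!
# Module gVSP of project d2 (MP_5823cb): the space of the functions of level `s` (helper34)
-/

set_option autoImplicit false

open Filter Topology MeasureTheory

namespace Pool.Agent.helper90.DH

open Pool.Agent.helper64.D2

/-- a positive definite bilinear form on a finite dimensional space is Euclidean. -/
theorem gVSP_abs (W : Type) [AddCommGroup W] [Module ℝ W] [FiniteDimensional ℝ W] (B : W → W → ℝ)
    (hsym : ∀ x y, B y x = B x y) (hpos : ∀ x, 0 ≤ B x x) (hadd : ∀ x y z, B (x + y) z = B x z + B y z)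
    (hsmul : ∀ (x y : W) (r : ℝ), B (r • x) y = r * B x y) (hdef : ∀ x, B x x = 0 → x = 0) :
    ∃ F : EuclideanSpace ℝ (Fin (Module.finrank ℝ W)) ≃ₗ[ℝ] W, ∀ v w, B (F v) (F w) = inner ℝ v w := by
  let core : InnerProductSpace.Core ℝ W :=
    { inner := B
      conj_inner_symm := fun x y => by
        show (starRingEnd ℝ) (B y x) = B x y
        rw [conj_trivial]
        exact hsym x y
      re_inner_nonneg := fun x => hpos x
      add_left := hadd
      smul_left := fun x y r => by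
        show B (r • x) y = (starRingEnd ℝ) r * B x y
        rw [conj_trivial]
        exact hsmul x y r
      definite := hdef }
  letI : NormedAddCommGroup W := @InnerProductSpace.Core.toNormedAddCommGroup ℝ W _ _ _ core
  letI : InnerProductSpace ℝ W := InnerProductSpace.ofCore core.toCore
  let b := stdOrthonormalBasis ℝ W
  refine ⟨b.repr.symm.toLinearEquiv, fun v w => ?_⟩
  exact b.repr.symm.inner_map_map v w

theorem gVSP_aff (a b l r : ℝ) (hlr : l < r) (h : ∀ x ∈ Set.Ioo l r, a + b * x = 0) : a = 0 ∧ b = 0 := by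
  have h1 := h ((2 * l + r) / 3) ⟨by linarith, by linarith⟩
  have h2 := h ((l + 2 * r) / 3) ⟨by linarith, by linarith⟩
  have h3 : b * (r - l) = 0 := by linarith
  have h4 : b = 0 := by
    rcases mul_eq_zero.1 h3 with h | h
    · exact h
    · linarith
  refine ⟨?_, h4⟩
  rw [h4] at h1
  linarith

theorem gVSP_cell (s : ℕ) (x : ℝ) : x ∈ cell s (ci s x) := by
  have h : (0 : ℝ) < 2 ^ s := by positivity
  unfold cell ci
  refine ⟨?_, ?_⟩
  · rw [div_le_iff₀ h]
    have := Int.floor_le ((2 : ℝ) ^ s * x)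
    linarith
  · rw [lt_div_iff₀ h]
    have := Int.lt_floor_add_one ((2 : ℝ) ^ s * x)
    linarith

theorem gVSP_cellIco (s : ℕ) (k : ℤ) : (k : ℝ) / 2 ^ s < ((k : ℝ) + 1) / 2 ^ s := by
  have h : (0 : ℝ) < 2 ^ s := by positivity
  exact (div_lt_div_iff_of_pos_right h).2 (by linarith)

/-- a piecewise affine function which is `0` almost everywhere is `0`. -/
theorem gVSP_zero (s : ℕ) (f : ℝ → ℝ) (hf : PA s f) (h : ∀ᵐ x, f x = 0) : f = 0 := by
  funext x
  obtain ⟨a, b, hab⟩ := hf (ci s x)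
  have hx := gVSP_cell s x
  obtain ⟨l, hl⟩ : ∃ l : ℝ, l = (ci s x : ℝ) / 2 ^ s := ⟨_, rfl⟩
  obtain ⟨r, hr⟩ : ∃ r : ℝ, r = ((ci s x : ℝ) + 1) / 2 ^ s := ⟨_, rfl⟩
  have hlr : l < r := by rw [hl, hr]; exact gVSP_cellIco s _
  have hU : IsOpen (Set.Ioo l r ∩ {y : ℝ | a + b * y ≠ 0}) := by
    refine isOpen_Ioo.inter ?_
    exact isOpen_ne_fun (by fun_prop) continuous_const
  have hUz : volume (Set.Ioo l r ∩ {y : ℝ | a + b * y ≠ 0}) = 0 := by
    refine measure_mono_null ?_ (ae_iff.1 h)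
    rintro y ⟨hy1, hy2⟩
    show ¬ f y = 0
    have hyc : y ∈ cell s (ci s x) := by
      unfold cell
      rw [← hl, ← hr]
      exact ⟨hy1.1.le, hy1.2⟩
    rw [hab y hyc]
    exact hy2
  have hUe := (hU.measure_eq_zero_iff volume).1 hUz
  have h0 : ∀ y ∈ Set.Ioo l r, a + b * y = 0 := by
    intro y hy
    by_contra hne
    have : y ∈ Set.Ioo l r ∩ {y : ℝ | a + b * y ≠ 0} := ⟨hy, hne⟩
    rw [hUe] at this
    exact this
  obtain ⟨ha, hb⟩ := gVSP_aff a b l r hlr h0
  rw [hab x hx, ha, hb]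
  simp

theorem gVSP_NLid : NL (fun x => x) := by
  intro x y hxy
  constructor
  · show 9 / 10 * (y - x) ≤ y - x
    linarith
  · show y - x ≤ 11 / 10 * (y - x)
    linarith

/-- the moments of `f` on the cells vanish. -/
def gVSP_mom (s : ℕ) (f : ℝ → ℝ) : Prop :=
  ∀ k : ℤ, (∫ t in cell s k, f t) = 0 ∧ (∫ t in cell s k, (t - ((k : ℝ) + 1 / 2) / 2 ^ s) * f t) = 0

theorem gVSP_int (s : ℕ) (k : ℤ) (f : ℝ → ℝ) (hf : Integrable f volume) :
    IntegrableOn (fun t => (t - ((k : ℝ) + 1 / 2) / 2 ^ s) * f t) (cell s k) volume := by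
  have hm : MeasurableSet (cell s k) := measurableSet_Ico
  refine Integrable.bdd_mul (c := |(k : ℝ) / 2 ^ s| + |((k : ℝ) + 1) / 2 ^ s| + |((k : ℝ) + 1 / 2) / 2 ^ s|) hf.integrableOn ?_ ?_
  · exact (by fun_prop : Continuous (fun t : ℝ => t - ((k : ℝ) + 1 / 2) / 2 ^ s)).aestronglyMeasurable
  · filter_upwards [ae_restrict_mem hm] with t ht
    rw [Real.norm_eq_abs]
    have h1 : |t| ≤ |(k : ℝ) / 2 ^ s| + |((k : ℝ) + 1) / 2 ^ s| := by
      obtain ⟨h2, h3⟩ := ht
      rw [abs_le]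
      have h4 := neg_abs_le ((k : ℝ) / 2 ^ s)
      have h5 := le_abs_self (((k : ℝ) + 1) / 2 ^ s)
      have h6 := abs_nonneg ((k : ℝ) / 2 ^ s)
      have h7 := abs_nonneg (((k : ℝ) + 1) / 2 ^ s)
      constructor <;> linarith
    have h2 := abs_sub t (((k : ℝ) + 1 / 2) / 2 ^ s)
    linarith

theorem gVSP_iff (hESZ : gESZ_stmt) (s : ℕ) (f : ℝ → ℝ) : VS s f ↔ PA (s + 1) f ∧ Su f ∧ gVSP_mom s f := by
  unfold VS
  rw [hESZ s f]
  rfl

/-- the submodule. -/
def gVSP_W (hFNC : gFNC_stmt) (hESZ : gESZ_stmt) (s : ℕ) : Submodule ℝ (ℝ → ℝ) where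
  carrier := {f | VS s f}
  zero_mem' := by
    show VS s 0
    rw [gVSP_iff hESZ]
    refine ⟨fun k => ⟨0, 0, fun x _ => by simp⟩, fun x _ => rfl, fun k => ⟨by simp, by simp⟩⟩
  add_mem' := by
    intro f g hf hg
    have hf' : VS s f := hf
    have hg' : VS s g := hg
    rw [gVSP_iff hESZ] at hf' hg'
    obtain ⟨f1, f2, f3⟩ := hf'
    obtain ⟨g1, g2, g3⟩ := hg'
    obtain ⟨-, -, -, fi, -⟩ := hFNC (s + 1) f _ f1 f2 gVSP_NLid
    obtain ⟨-, -, -, gi, -⟩ := hFNC (s + 1) g _ g1 g2 gVSP_NLid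
    show VS s (f + g)
    rw [gVSP_iff hESZ]
    refine ⟨?_, ?_, ?_⟩
    · intro k
      obtain ⟨a, b, hab⟩ := f1 k
      obtain ⟨a', b', hab'⟩ := g1 k
      refine ⟨a + a', b + b', fun x hx => ?_⟩
      rw [Pi.add_apply, hab x hx, hab' x hx]
      ring
    · intro x hx
      rw [Pi.add_apply, f2 x hx, g2 x hx, add_zero]
    · intro k
      constructor
      · have h1 : (∫ t in cell s k, (f + g) t) = (∫ t in cell s k, f t) + ∫ t in cell s k, g t :=
          integral_add fi.integrableOn gi.integrableOn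
        rw [h1, (f3 k).1, (g3 k).1, add_zero]
      · have h1 : (∫ t in cell s k, (t - ((k : ℝ) + 1 / 2) / 2 ^ s) * (f + g) t) =
            (∫ t in cell s k, (t - ((k : ℝ) + 1 / 2) / 2 ^ s) * f t) + ∫ t in cell s k, (t - ((k : ℝ) + 1 / 2) / 2 ^ s) * g t := by
          rw [← integral_add (gVSP_int s k f fi) (gVSP_int s k g gi)]
          congr 1
          funext t
          rw [Pi.add_apply]
          ring
        rw [h1, (f3 k).2, (g3 k).2, add_zero]
  smul_mem' := by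
    intro c f hf
    have hf' : VS s f := hf
    rw [gVSP_iff hESZ] at hf'
    obtain ⟨f1, f2, f3⟩ := hf'
    show VS s (c • f)
    rw [gVSP_iff hESZ]
    refine ⟨?_, ?_, ?_⟩
    · intro k
      obtain ⟨a, b, hab⟩ := f1 k
      refine ⟨c * a, c * b, fun x hx => ?_⟩
      rw [Pi.smul_apply, hab x hx, smul_eq_mul]
      ring
    · intro x hx
      rw [Pi.smul_apply, f2 x hx, smul_zero]
    · intro k
      constructor
      · have h1 : (∫ t in cell s k, (c • f) t) = c * ∫ t in cell s k, f t := by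
          rw [← integral_const_mul]
          rfl
        rw [h1, (f3 k).1, mul_zero]
      · have h1 : (∫ t in cell s k, (t - ((k : ℝ) + 1 / 2) / 2 ^ s) * (c • f) t) = c * ∫ t in cell s k, (t - ((k : ℝ) + 1 / 2) / 2 ^ s) * f t := by
          rw [← integral_const_mul]
          congr 1
          funext t
          rw [Pi.smul_apply, smul_eq_mul]
          ring
        rw [h1, (f3 k).2, mul_zero]

/-- the evaluation map. -/
noncomputable def gVSP_ev (W : Submodule ℝ (ℝ → ℝ)) (s : ℕ) :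
    W →ₗ[ℝ] (Fin (2 ^ (s + 1)) → ℝ) × (Fin (2 ^ (s + 1)) → ℝ) where
  toFun f := (fun k => (f : ℝ → ℝ) ((k : ℝ) / 2 ^ (s + 1)), fun k => (f : ℝ → ℝ) (((k : ℝ) + 1 / 2) / 2 ^ (s + 1)))
  map_add' f g := rfl
  map_smul' c f := rfl

theorem gVSP_evinj (hFNC : gFNC_stmt) (hESZ : gESZ_stmt) (s : ℕ) : Function.Injective (gVSP_ev (gVSP_W hFNC hESZ s) s) := by
  rw [injective_iff_map_eq_zero]
  intro f hf
  have hf1 : VS s (f : ℝ → ℝ) := f.2
  obtain ⟨h1, h2, -⟩ := hf1
  have e1 : ∀ k : Fin (2 ^ (s + 1)), (f : ℝ → ℝ) ((k : ℝ) / 2 ^ (s + 1)) = 0 := fun k => congrFun (congrArg Prod.fst hf) k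
  have e2 : ∀ k : Fin (2 ^ (s + 1)), (f : ℝ → ℝ) (((k : ℝ) + 1 / 2) / 2 ^ (s + 1)) = 0 := fun k => congrFun (congrArg Prod.snd hf) k
  apply Subtype.ext
  funext x
  show (f : ℝ → ℝ) x = 0
  have hp : (0 : ℝ) < 2 ^ (s + 1) := by positivity
  by_cases hx : x ∈ Set.Ico (0 : ℝ) 1
  · have hc := gVSP_cell (s + 1) x
    have hk0 : 0 ≤ ci (s + 1) x := by
      unfold ci
      exact Int.floor_nonneg.2 (mul_nonneg hp.le hx.1)
    have hk1 : ci (s + 1) x < 2 ^ (s + 1) := by
      unfold ci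
      rw [Int.floor_lt]
      push_cast
      nlinarith [hx.2]
    obtain ⟨k, hk⟩ : ∃ k : ℕ, (k : ℤ) = ci (s + 1) x := ⟨(ci (s + 1) x).toNat, Int.toNat_of_nonneg hk0⟩
    have hk2 : k < 2 ^ (s + 1) := by
      rw [← hk] at hk1
      exact_mod_cast hk1
    rw [← hk] at hc
    obtain ⟨a, b, hab⟩ := h1 (k : ℤ)
    have m1 : ((k : ℝ) / 2 ^ (s + 1)) ∈ cell (s + 1) (k : ℤ) := by
      unfold cell
      push_cast
      exact ⟨le_rfl, (div_lt_div_iff_of_pos_right hp).2 (by linarith)⟩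
    have m2 : (((k : ℝ) + 1 / 2) / 2 ^ (s + 1)) ∈ cell (s + 1) (k : ℤ) := by
      unfold cell
      push_cast
      exact ⟨(div_le_div_iff_of_pos_right hp).2 (by linarith), (div_lt_div_iff_of_pos_right hp).2 (by linarith)⟩
    have z1 := e1 ⟨k, hk2⟩
    have z2 := e2 ⟨k, hk2⟩
    simp only at z1 z2
    rw [hab _ m1] at z1
    rw [hab _ m2] at z2
    have hb : b = 0 := by
      have h3 : b * ((1 / 2) / 2 ^ (s + 1)) = 0 := by
        have h4 : (((k : ℝ) + 1 / 2) / 2 ^ (s + 1)) = (k : ℝ) / 2 ^ (s + 1) + (1 / 2) / 2 ^ (s + 1) := by ring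
        rw [h4] at z2
        linarith
      rcases mul_eq_zero.1 h3 with h | h
      · exact h
      · have : (0 : ℝ) < (1 / 2) / 2 ^ (s + 1) := by positivity
        linarith
    have ha : a = 0 := by
      rw [hb] at z1
      linarith
    rw [hab x hc, ha, hb]
    ring
  · apply h2
    intro h3
    exact hx ⟨by linarith [h3.1], by linarith [h3.2]⟩

/-- **gVSP** -/
theorem gVSP (hFNC : gFNC_stmt) (hESZ : gESZ_stmt) : gVSP_stmt := by
  intro s
  have hinj := gVSP_evinj hFNC hESZ s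
  obtain ⟨W, hW⟩ : ∃ W : Submodule ℝ (ℝ → ℝ), W = gVSP_W hFNC hESZ s := ⟨_, rfl⟩
  rw [← hW] at hinj
  have hWm : ∀ f : ℝ → ℝ, f ∈ W ↔ VS s f := by
    intro f
    rw [hW]
    rfl
  haveI : FiniteDimensional ℝ W := FiniteDimensional.of_injective (gVSP_ev W s) hinj
  have hfin : Module.finrank ℝ W ≤ 2 ^ (s + 2) := by
    have h1 := LinearMap.finrank_le_finrank_of_injective hinj
    rw [Module.finrank_prod, Module.finrank_fin_fun] at h1
    have h2 : 2 ^ (s + 2) = 2 ^ (s + 1) + 2 ^ (s + 1) := by ring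
    omega
  -- facts on the members
  have hL2 : ∀ f : W, MemLp (f : ℝ → ℝ) 2 volume := by
    intro f
    have h1 := (hWm f).1 f.2
    exact (hFNC (s + 1) _ _ h1.1 h1.2.1 gVSP_NLid).2.2.2.2.1
  have hmul : ∀ f g : W, Integrable (fun x => (f : ℝ → ℝ) x * (g : ℝ → ℝ) x) volume := fun f g => (hL2 f).integrable_mul (hL2 g)
  obtain ⟨F, hF⟩ := gVSP_abs W (fun f g => ∫ x, (f : ℝ → ℝ) x * (g : ℝ → ℝ) x)
    (by
      intro f g
      congr 1
      funext x
      exact mul_comm _ _)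
    (fun f => integral_nonneg fun x => mul_self_nonneg _)
    (by
      intro f g h
      rw [← integral_add (hmul f h) (hmul g h)]
      congr 1
      funext x
      show ((f : ℝ → ℝ) x + (g : ℝ → ℝ) x) * (h : ℝ → ℝ) x = _
      ring)
    (by
      intro f g r
      rw [← integral_const_mul]
      congr 1
      funext x
      show (r * (f : ℝ → ℝ) x) * (g : ℝ → ℝ) x = _
      ring)
    (by
      intro f hf
      apply Subtype.ext
      have h1 := (hWm f).1 f.2
      refine gVSP_zero (s + 1) _ h1.1 ?_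
      have h2 := (integral_eq_zero_iff_of_nonneg (fun x => mul_self_nonneg ((f : ℝ → ℝ) x)) (hmul f f)).1 hf
      filter_upwards [h2] with x hx
      exact mul_self_eq_zero.1 hx)
  refine ⟨Module.finrank ℝ W, W.subtype ∘ₗ F.toLinearMap, hfin, ?_, ?_, ?_⟩
  · intro v
    exact (hWm _).1 (F v).2
  · intro f hf
    refine ⟨F.symm ⟨f, (hWm f).2 hf⟩, ?_⟩
    show ((F (F.symm ⟨f, (hWm f).2 hf⟩) : W) : ℝ → ℝ) = f
    rw [LinearEquiv.apply_symm_apply]
  · intro v w
    exact hF v w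

end Pool.Agent.helper90.DH
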